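import Mathlib

/-! Compact covers with countable networks from ultrafilter convergence. -/

open Set Filter Topology

namespace Pool.Agent.GulkoSum

section

variable {Z ι : Type*} [TopologicalSpace Z] [RegularSpace Z] (N : ι → Set Z)

lemma key_conv (z : Z)
    (h : ∀ U : Ultrafilter Z, (∀ j, z ∈ N j → N j ∈ U) → ∃ z', (U : Filter Z) ≤ 𝓝 z')
    (V : Ultrafilter Z)
    (hV : ∀ s : Finset ι, (∀ j ∈ s, z ∈ N j) → closure (⋂ j ∈ s, N j) ∈ V) :
    ∃ z', (∀ s : Finset ι, (∀ j ∈ s, z ∈ N j) → z' ∈ closure (⋂ j ∈ s, N j)) ∧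
      (V : Filter Z) ≤ 𝓝 z' := by
  classical
  let S : Set (Set Z) := {O | IsOpen O ∧ O ∈ V} ∪ {A | ∃ j, z ∈ N j ∧ A = N j}
  obtain ⟨U, hU⟩ : ∃ U : Ultrafilter Z, S ⊆ (U : Filter Z).sets := by
    apply Ultrafilter.exists_ultrafilter_of_finite_inter_nonempty
    intro T hT
    -- split `T`
    have hex : ∀ T : Finset (Set Z), (T : Set (Set Z)) ⊆ S → ∃ (O : Set Z) (s : Finset ι),
        IsOpen O ∧ O ∈ V ∧ (∀ j ∈ s, z ∈ N j) ∧ O ∩ (⋂ j ∈ s, N j) ⊆ ⋂₀ (T : Set (Set Z)) := by
      intro T
      induction T using Finset.induction_on with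
      | empty => exact fun _ => ⟨univ, ∅, isOpen_univ, Filter.univ_mem, by simp, by simp⟩
      | insert A T _ ih =>
        intro hT
        rw [Finset.coe_insert] at hT ⊢
        obtain ⟨O, s, h1, h2, h3, h4⟩ := ih ((subset_insert _ _).trans hT)
        rw [sInter_insert]
        rcases hT (mem_insert A _) with hA | hA
        · refine ⟨A ∩ O, s, hA.1.inter h1, Filter.inter_mem hA.2 h2, h3, ?_⟩
          rintro x ⟨⟨hx1, hx2⟩, hx3⟩
          exact ⟨hx1, h4 ⟨hx2, hx3⟩⟩
        · obtain ⟨j, hj, rfl⟩ := hA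
          refine ⟨O, insert j s, h1, h2, ?_, ?_⟩
          · intro i hi
            rcases Finset.mem_insert.1 hi with rfl | hi
            · exact hj
            · exact h3 i hi
          · rintro x ⟨hx1, hx2⟩
            rw [Finset.set_biInter_insert] at hx2
            exact ⟨hx2.1, h4 ⟨hx1, hx2.2⟩⟩
    obtain ⟨O, s, h1, h2, h3, h4⟩ := hex T hT
    obtain ⟨p, hp1, hp2⟩ := V.nonempty_of_mem (Filter.inter_mem h2 (hV s h3))
    obtain ⟨q, hq1, hq2⟩ := mem_closure_iff.1 hp2 O h1 hp1
    exact ⟨q, h4 ⟨hq1, hq2⟩⟩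
  obtain ⟨z', hz'⟩ := h U (fun j hj => hU (Or.inr ⟨j, hj, rfl⟩))
  refine ⟨z', ?_, ?_⟩
  · intro s hs
    rw [mem_closure_iff_ultrafilter]
    refine ⟨U, ?_, hz'⟩
    exact (Filter.biInter_finset_mem s).2 fun j hj => hU (Or.inr ⟨j, hs j hj, rfl⟩)
  · intro O hO
    obtain ⟨T, hT1, hT2, hT3⟩ := exists_mem_nhds_isClosed_subset hO
    by_contra hno
    have h1 : T ∉ V := fun h => hno (Filter.mem_of_superset h hT3)
    have h2 : Tᶜ ∈ V := Ultrafilter.compl_mem_iff_notMem.2 h1
    have h3 : Tᶜ ∈ U := hU (Or.inl ⟨hT2.isOpen_compl, h2⟩)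
    have h4 : T ∈ U := hz' hT1
    exact U.empty_notMem (by
      have := Filter.inter_mem h4 h3
      rwa [inter_compl_self] at this)

/-- A countable family of sets such that every ultrafilter finer than the trace of a point
converges gives a compact cover with a countable network modulo it. -/
theorem exists_network [Countable ι]
    (h : ∀ (z : Z) (U : Ultrafilter Z), (∀ j, z ∈ N j → N j ∈ U) → ∃ z', (U : Filter Z) ≤ 𝓝 z') :
    ∃ (C M : Set (Set Z)), M.Countable ∧ ⋃₀ C = univ ∧
      ∀ K ∈ C, IsCompact K ∧ ∀ U : Set Z, IsOpen U → K ⊆ U → ∃ A ∈ M, K ⊆ A ∧ A ⊆ U := by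
  classical
  let Cz : Z → Set Z := fun z => {y | ∀ s : Finset ι, (∀ j ∈ s, z ∈ N j) →
    y ∈ closure (⋂ j ∈ s, N j)}
  refine ⟨range Cz, range fun s : Finset ι => closure (⋂ j ∈ s, N j), countable_range _, ?_, ?_⟩
  · rw [eq_univ_iff_forall]
    intro z
    refine mem_sUnion.2 ⟨Cz z, mem_range_self z, ?_⟩
    intro s hs
    apply subset_closure
    simp only [mem_iInter]
    exact hs
  · rintro _ ⟨z, rfl⟩
    refine ⟨?_, ?_⟩
    · rw [isCompact_iff_ultrafilter_le_nhds]
      intro V hV
      rw [Filter.le_principal_iff] at hV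
      obtain ⟨z', h1, h2⟩ := key_conv N z (h z) V (fun s hs =>
        Filter.mem_of_superset hV fun y hy => hy s hs)
      exact ⟨z', h1, h2⟩
    · intro U hU hCU
      by_contra hno
      push Not at hno
      have hno' : ∀ s : Finset ι, (∀ j ∈ s, z ∈ N j) →
          (closure (⋂ j ∈ s, N j) ∩ Uᶜ).Nonempty := by
        intro s hs
        by_contra hemp
        apply hno _ ⟨s, rfl⟩ (fun y hy => hy s hs)
        intro y hy
        by_contra hyU
        exact hemp ⟨y, hy, hyU⟩
      let S : Set (Set Z) := {A | A = Uᶜ ∨ ∃ s : Finset ι, (∀ j ∈ s, z ∈ N j) ∧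
        A = closure (⋂ j ∈ s, N j)}
      obtain ⟨V, hV⟩ : ∃ V : Ultrafilter Z, S ⊆ (V : Filter Z).sets := by
        apply Ultrafilter.exists_ultrafilter_of_finite_inter_nonempty
        intro T hT
        have hex : ∀ T : Finset (Set Z), (T : Set (Set Z)) ⊆ S → ∃ (s : Finset ι),
            (∀ j ∈ s, z ∈ N j) ∧ closure (⋂ j ∈ s, N j) ∩ Uᶜ ⊆ ⋂₀ (T : Set (Set Z)) := by
          intro T
          induction T using Finset.induction_on with
          | empty => exact fun _ => ⟨∅, by simp, by simp⟩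
          | insert A T _ ih =>
            intro hT
            rw [Finset.coe_insert] at hT ⊢
            obtain ⟨s, h3, h4⟩ := ih ((subset_insert _ _).trans hT)
            rw [sInter_insert]
            rcases hT (mem_insert A _) with hA | ⟨s', hs', hA⟩
            · refine ⟨s, h3, ?_⟩
              rintro x ⟨hx1, hx2⟩
              exact ⟨by rw [hA]; exact hx2, h4 ⟨hx1, hx2⟩⟩
            · refine ⟨s ∪ s', ?_, ?_⟩
              · intro i hi
                rcases Finset.mem_union.1 hi with hi | hi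
                · exact h3 i hi
                · exact hs' i hi
              · rintro x ⟨hx1, hx2⟩
                refine ⟨?_, h4 ⟨?_, hx2⟩⟩
                · rw [hA]
                  refine closure_mono ?_ hx1
                  exact biInter_subset_biInter_left fun i hi => Finset.mem_union_right _ hi
                · refine closure_mono ?_ hx1
                  exact biInter_subset_biInter_left fun i hi => Finset.mem_union_left _ hi
        obtain ⟨s, h3, h4⟩ := hex T hT
        exact (hno' s h3).mono h4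
      obtain ⟨z', h1, h2⟩ := key_conv N z (h z) V (fun s hs => hV (Or.inr ⟨s, hs, rfl⟩))
      have h3 : z' ∈ U := hCU h1
      have h4 : U ∈ V := h2 (hU.mem_nhds h3)
      have h5 : Uᶜ ∈ V := hV (Or.inl rfl)
      exact V.empty_notMem (by
        have := Filter.inter_mem h4 h5
        rwa [inter_compl_self] at this)

end

end Pool.Agent.GulkoSum
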