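import Mathlib
import Pool.Agent.GulkoSum.Network

/-! A criterion for Gul'ko compactness. -/

open Set Filter Topology

namespace Pool.Agent.GulkoSum

section

variable {K Γ : Type} [TopologicalSpace K] [CompactSpace K] (ev : Γ → K → Bool)
  (F : Γ → ℕ → Bool)

include ev in
/-- finite determination up to `ε` -/
lemma exists_finite_det (hcont : ∀ δ, Continuous (ev δ))
    (hsep : ∀ a b, (∀ δ, ev δ a = ev δ b) → a = b) (f : C(K, ℝ)) (ε : ℝ) (hε : 0 < ε) :
    ∃ D : Finset Γ, ∀ a b, (∀ δ ∈ D, ev δ a = ev δ b) → |f a - f b| < ε := by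
  classical
  have hcl : IsClosed {p : K × K | ε ≤ |f p.1 - f p.2|} := by
    refine isClosed_le continuous_const ?_
    fun_prop
  have hcomp : IsCompact {p : K × K | ε ≤ |f p.1 - f p.2|} := hcl.isCompact
  obtain ⟨D, hD⟩ := hcomp.elim_finite_subcover (fun δ => {p : K × K | ev δ p.1 ≠ ev δ p.2})
    (fun δ => by
      have h1 : Continuous fun p : K × K => (ev δ p.1, ev δ p.2) :=
        ((hcont δ).comp continuous_fst).prodMk ((hcont δ).comp continuous_snd)
      exact (isOpen_discrete {q : Bool × Bool | q.1 ≠ q.2}).preimage h1)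
    (fun p hp => by
      have hne : p.1 ≠ p.2 := by
        intro h
        have hp' : ε ≤ |f p.1 - f p.2| := hp
        rw [h, sub_self, abs_zero] at hp'
        linarith
      by_contra hno
      simp only [mem_iUnion, mem_ofPred_eq, not_exists, not_not] at hno
      exact hne (hsep _ _ hno))
  refine ⟨D, fun a b hab => ?_⟩
  by_contra hno
  push Not at hno
  have := hD (show (a, b) ∈ {p : K × K | ε ≤ |f p.1 - f p.2|} from hno)
  simp only [mem_iUnion, mem_ofPred_eq] at this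
  obtain ⟨δ, hδ, hne⟩ := this
  exact hne (hab δ hδ)

/-- the index set of the network -/
abbrev Idx : Type := Σ s : ℕ × ℕ × ℕ, ((Fin s.1 → Bool) → ℚ) × (Fin s.1 → Fin s.2.1 → Bool)

/-- the network -/
def NN (j : Idx) : Set C(K, ℝ) :=
  {f | ∃ δ : Fin j.1.1 → Γ, (∀ i (l : Fin j.1.2.1), F (δ i) l = j.2.2 i l) ∧
    ∀ a, |f a - j.2.1 (fun i => ev (δ i) a)| ≤ 1 / ((j.1.2.2 : ℝ) + 1)}

omit [CompactSpace K] in
/-- limits of the generating functions -/
lemma exists_lim (hcont : ∀ δ, Continuous (ev δ))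
    (hP : ∀ (a : K) (γ : Γ), ∃ k, {δ | ev δ a = true ∧ ∀ i, i < k → F δ i = F γ i}.Finite)
    (γ : Γ) (D : Ultrafilter Γ) (hD : ∀ l, {δ | F δ l = F γ l} ∈ D) :
    ∃ h : K → Bool, Continuous h ∧ ∀ a, ∀ᶠ δ in (D : Filter Γ), ev δ a = h a := by
  classical
  by_cases hpr : ∃ δ', {δ'} ∈ D
  · obtain ⟨δ', hδ'⟩ := hpr
    refine ⟨ev δ', hcont δ', fun a => ?_⟩
    filter_upwards [hδ'] with δ hδ
    rw [mem_singleton_iff.1 hδ]
  · push Not at hpr
    refine ⟨fun _ => false, continuous_const, fun a => ?_⟩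
    obtain ⟨k, hk⟩ := hP a γ
    have h1 : {δ | ∀ i, i < k → F δ i = F γ i} ∈ (D : Filter Γ) := by
      have : {δ | ∀ i, i < k → F δ i = F γ i} = ⋂ i ∈ Finset.range k, {δ | F δ i = F γ i} := by
        ext δ
        simp
      rw [this]
      exact (Filter.biInter_finset_mem _).2 fun i _ => hD i
    have h2 : {δ | ev δ a = true ∧ ∀ i, i < k → F δ i = F γ i} ∉ D := by
      intro hmem
      have h3 : (⋃ δ ∈ {δ | ev δ a = true ∧ ∀ i, i < k → F δ i = F γ i}, {δ}) ∈ D := by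
        rw [biUnion_of_singleton]
        exact hmem
      rw [Ultrafilter.finite_biUnion_mem_iff hk] at h3
      obtain ⟨δ, -, hδ⟩ := h3
      exact hpr δ hδ
    have h3 := Ultrafilter.compl_mem_iff_notMem.2 h2
    filter_upwards [h1, h3] with δ hδ1 hδ2
    by_contra hne
    apply hδ2
    exact ⟨by simpa using hne, hδ1⟩

/-- every ultrafilter containing the traces of `f` on the network converges pointwise -/
lemma exists_limit (hcont : ∀ δ, Continuous (ev δ))
    (hsep : ∀ a b, (∀ δ, ev δ a = ev δ b) → a = b)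
    (hP : ∀ (a : K) (γ : Γ), ∃ k, {δ | ev δ a = true ∧ ∀ i, i < k → F δ i = F γ i}.Finite)
    (f : C(K, ℝ)) (U : Ultrafilter C(K, ℝ)) (hU : ∀ j, f ∈ NN ev F j → NN ev F j ∈ U) :
    ∃ g : C(K, ℝ), ∀ a, Tendsto (fun h : C(K, ℝ) => h a) U (𝓝 (g a)) := by
  classical
  have key : ∀ n : ℕ, ∃ P : C(K, ℝ), ∀ a, ∀ᶠ g in (U : Filter C(K, ℝ)),
      |g a - P a| ≤ 1 / ((n : ℝ) + 1) := by
    intro n
    have hpos : (0 : ℝ) < 1 / ((n : ℝ) + 1) / 2 := by positivity
    obtain ⟨D, hD⟩ := exists_finite_det ev hcont hsep f _ hpos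
    set r := D.card with hr
    let δ₀ : Fin r → Γ := fun i => (D.equivFin.symm i).1
    have hδ₀ : ∀ δ ∈ D, ∃ i, δ₀ i = δ := by
      intro δ hδ
      exact ⟨D.equivFin ⟨δ, hδ⟩, by simp [δ₀]⟩
    have hφ : ∀ t : Fin r → Bool, ∃ q : ℚ, ∀ a, (fun i => ev (δ₀ i) a) = t →
        |f a - q| ≤ 1 / ((n : ℝ) + 1) := by
      intro t
      by_cases hex : ∃ a, (fun i => ev (δ₀ i) a) = t
      · obtain ⟨a₀, ha₀⟩ := hex
        obtain ⟨q, hq1, hq2⟩ := exists_rat_btwn (show f a₀ < f a₀ + 1 / ((n : ℝ) + 1) / 2 by linarith)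
        refine ⟨q, fun a ha => ?_⟩
        have h1 : |f a - f a₀| < 1 / ((n : ℝ) + 1) / 2 := by
          apply hD
          intro δ hδ
          obtain ⟨i, rfl⟩ := hδ₀ δ hδ
          have := ha.trans ha₀.symm
          exact congrFun this i
        have h2 : |f a₀ - q| ≤ 1 / ((n : ℝ) + 1) / 2 := by
          rw [abs_le]
          constructor <;> linarith
        calc |f a - q| ≤ |f a - f a₀| + |f a₀ - q| := abs_sub_le _ _ _
          _ ≤ 1 / ((n : ℝ) + 1) := by linarith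
      · exact ⟨0, fun a ha => absurd ⟨a, ha⟩ hex⟩
    choose φ hφ using hφ
    let J : ℕ → Idx := fun k => ⟨(r, k, n), φ, fun i l => F (δ₀ i) l⟩
    have hfJ : ∀ k, f ∈ NN ev F (J k) := fun k => ⟨δ₀, fun _ _ => rfl, fun a => hφ _ a rfl⟩
    have hUJ : ∀ k, NN ev F (J k) ∈ (U : Filter C(K, ℝ)) := fun k => hU _ (hfJ k)
    -- choice of witnesses
    have hwit : ∀ p : C(K, ℝ) × ℕ, ∃ δ : Fin r → Γ, p.1 ∈ NN ev F (J p.2) →
        (∀ i (l : ℕ), l < p.2 → F (δ i) l = F (δ₀ i) l) ∧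
          ∀ a, |p.1 a - φ (fun i => ev (δ i) a)| ≤ 1 / ((n : ℝ) + 1) := by
      intro p
      by_cases hp : p.1 ∈ NN ev F (J p.2)
      · obtain ⟨δ, h1, h2⟩ := id hp
        exact ⟨δ, fun _ => ⟨fun i l hl => h1 i ⟨l, hl⟩, h2⟩⟩
      · exact ⟨δ₀, fun h => absurd h hp⟩
    choose δ hδ using hwit
    -- the ultrafilter on the product
    let L : Filter (C(K, ℝ) × ℕ) := (comap Prod.fst (U : Filter C(K, ℝ)) ⊓ comap Prod.snd atTop) ⊓
      𝓟 {p | p.1 ∈ NN ev F (J p.2)}
    have hL : NeBot L := by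
      rw [inf_principal_neBot_iff]
      intro A hA
      obtain ⟨A1, hA1, A2, hA2, hAA⟩ := Filter.mem_inf_iff_superset.1 hA
      obtain ⟨B1, hB1, hB1'⟩ := Filter.mem_comap.1 hA1
      obtain ⟨B2, hB2, hB2'⟩ := Filter.mem_comap.1 hA2
      obtain ⟨k, hk⟩ := Filter.mem_atTop_sets.1 hB2
      obtain ⟨g, hg1, hg2⟩ := U.nonempty_of_mem (Filter.inter_mem hB1 (hUJ k))
      exact ⟨(g, k), hAA ⟨hB1' hg1, hB2' (hk k le_rfl)⟩, hg2⟩
    let W : Ultrafilter (C(K, ℝ) × ℕ) := Ultrafilter.of L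
    have hWL : (W : Filter (C(K, ℝ) × ℕ)) ≤ L := Ultrafilter.of_le L
    have hW1 : Tendsto Prod.fst (W : Filter (C(K, ℝ) × ℕ)) U := by
      rw [tendsto_iff_comap]
      exact hWL.trans (inf_le_left.trans inf_le_left)
    have hW2 : Tendsto Prod.snd (W : Filter (C(K, ℝ) × ℕ)) atTop := by
      rw [tendsto_iff_comap]
      exact hWL.trans (inf_le_left.trans inf_le_right)
    have hW3 : ∀ᶠ p in (W : Filter (C(K, ℝ) × ℕ)), p.1 ∈ NN ev F (J p.2) :=
      hWL (mem_inf_of_right (mem_principal_self _))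
    have hlims : ∀ i, ∃ h : K → Bool, Continuous h ∧
        ∀ a, ∀ᶠ p in (W : Filter (C(K, ℝ) × ℕ)), ev (δ p i) a = h a := by
      intro i
      obtain ⟨h, hc, hh⟩ := exists_lim ev F hcont hP (δ₀ i) (W.map fun p => δ p i) (by
        intro l
        rw [Ultrafilter.mem_map]
        have h1 := hW2.eventually (eventually_gt_atTop l)
        filter_upwards [hW3, h1] with p hp1 hp2
        exact (hδ p hp1).1 i l hp2)
      refine ⟨h, hc, fun a => ?_⟩
      have := hh a
      rw [Ultrafilter.coe_map] at this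
      exact this
    choose h hc hh using hlims
    refine ⟨⟨fun a => (φ (fun i => h i a) : ℝ), ?_⟩, fun a => ?_⟩
    · have h1 : Continuous fun a => fun i => h i a := continuous_pi hc
      exact (continuous_of_discreteTopology (f := fun t : Fin r → Bool => (φ t : ℝ))).comp h1
    · have h1 : ∀ᶠ p in (W : Filter (C(K, ℝ) × ℕ)), ∀ i, ev (δ p i) a = h i a :=
        eventually_all.2 fun i => hh i a
      have h2 : ∀ᶠ p in (W : Filter (C(K, ℝ) × ℕ)),
          |p.1 a - (φ (fun i => h i a) : ℝ)| ≤ 1 / ((n : ℝ) + 1) := by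
        filter_upwards [h1, hW3] with p hp1 hp2
        have h3 := (hδ p hp2).2 a
        have h4 : (fun i => ev (δ p i) a) = fun i => h i a := funext hp1
        rwa [h4] at h3
      by_contra hno
      have hno' : ∀ᶠ g in (U : Filter C(K, ℝ)), ¬ |g a - (φ (fun i => h i a) : ℝ)| ≤ 1 / ((n : ℝ) + 1) :=
        Ultrafilter.eventually_not.2 hno
      have h5 := hW1.eventually hno'
      obtain ⟨p, hp1, hp2⟩ := (h2.and h5).exists
      exact hp2 hp1
  choose P hP' using key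
  have hdist : ∀ n m, dist (P n) (P m) ≤ 1 / ((n : ℝ) + 1) + 1 / ((m : ℝ) + 1) := by
    intro n m
    rw [ContinuousMap.dist_le (by positivity)]
    intro a
    obtain ⟨g, hg1, hg2⟩ := ((hP' n a).and (hP' m a)).exists
    rw [Real.dist_eq]
    calc |P n a - P m a| ≤ |P n a - g a| + |g a - P m a| := abs_sub_le _ _ _
      _ ≤ _ := by
        rw [abs_sub_comm (P n a) (g a)]
        linarith
  have hz : Tendsto (fun n : ℕ => 1 / ((n : ℝ) + 1)) atTop (𝓝 0) := tendsto_one_div_add_atTop_nhds_zero_nat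
  have hcauchy : CauchySeq P := by
    refine cauchySeq_of_le_tendsto_0 (fun n : ℕ => 1 / ((n : ℝ) + 1) + 1 / ((n : ℝ) + 1)) ?_ ?_
    · intro n m N hn hm
      refine (hdist n m).trans ?_
      have h1 : (N : ℝ) ≤ n := by exact_mod_cast hn
      have h2 : (N : ℝ) ≤ m := by exact_mod_cast hm
      gcongr
    · simpa using hz.add hz
  obtain ⟨g, hg⟩ := cauchySeq_tendsto_of_complete hcauchy
  have hgP : ∀ n a, |P n a - g a| ≤ 1 / ((n : ℝ) + 1) := by
    intro n a
    have h1 : Tendsto (fun m => |P n a - P m a|) atTop (𝓝 |P n a - g a|) := by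
      have h2 : Tendsto (fun m => P m a) atTop (𝓝 (g a)) :=
        ((continuous_eval_const a).tendsto g).comp hg
      exact (h2.const_sub _).abs
    have h3 : Tendsto (fun m : ℕ => 1 / ((n : ℝ) + 1) + 1 / ((m : ℝ) + 1)) atTop
        (𝓝 (1 / ((n : ℝ) + 1))) := by
      simpa using hz.const_add (1 / ((n : ℝ) + 1))
    refine le_of_tendsto_of_tendsto h1 h3 (Eventually.of_forall fun m => ?_)
    have := ContinuousMap.dist_apply_le_dist (f := P n) (g := P m) a
    rw [Real.dist_eq] at this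
    exact this.trans (hdist n m)
  refine ⟨g, fun a => ?_⟩
  rw [Metric.tendsto_nhds]
  intro ε hε
  obtain ⟨n, hn⟩ := exists_nat_one_div_lt (half_pos hε)
  filter_upwards [hP' n a] with k hk
  rw [Real.dist_eq]
  calc |k a - g a| ≤ |k a - P n a| + |P n a - g a| := abs_sub_le _ _ _
    _ < ε := by
      have := hgP n a
      linarith

/-- The criterion for Gul'ko compactness. -/
theorem gulko_of (hcont : ∀ δ, Continuous (ev δ))
    (hsep : ∀ a b, (∀ δ, ev δ a = ev δ b) → a = b)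
    (hP : ∀ (a : K) (γ : Γ), ∃ k, {δ | ev δ a = true ∧ ∀ i, i < k → F δ i = F γ i}.Finite) :
    ∃ (𝒞 𝒩 : Set (Set C(K, ℝ))), 𝒩.Countable ∧ ⋃₀ 𝒞 = Set.univ ∧
      ∀ C ∈ 𝒞,
        @IsCompact _ (TopologicalSpace.induced
          (fun f : C(K, ℝ) => (⇑f : K → ℝ)) inferInstance) C ∧
        ∀ U : Set C(K, ℝ),
          @IsOpen _ (TopologicalSpace.induced
            (fun f : C(K, ℝ) => (⇑f : K → ℝ)) inferInstance) U →
          C ⊆ U → ∃ N ∈ 𝒩, C ⊆ N ∧ N ⊆ U := by
  have hreg : @RegularSpace C(K, ℝ) (TopologicalSpace.induced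
      (fun f : C(K, ℝ) => (⇑f : K → ℝ)) inferInstance) := regularSpace_induced _
  refine @exists_network C(K, ℝ) Idx (TopologicalSpace.induced
      (fun f : C(K, ℝ) => (⇑f : K → ℝ)) inferInstance) hreg (NN ev F) inferInstance ?_
  intro f U hU
  obtain ⟨g, hg⟩ := exists_limit ev F hcont hsep hP f U hU
  refine ⟨g, ?_⟩
  rw [nhds_induced, ← tendsto_iff_comap, tendsto_pi_nhds]
  exact hg

end

end Pool.Agent.GulkoSum
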