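import Mathlib
import Pool.Agent.GulkoSum.Positive

/-! The compact space of the counterexample. -/

open Set Filter Topology PiNat

namespace Pool.Agent.GulkoSum

/-- points of the Cantor set -/
abbrev Cn : Type := ℕ → Bool

/-- vertices: a set `M`, a point `x` of `M` and a sequence outside `M` converging (fast) to `x` -/
structure Vx : Type where
  /-- the set -/
  M : Set Cn
  /-- the point -/
  x : Cn
  /-- the sequence -/
  s : ℕ → Cn
  /-- the point is in the set -/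
  hx : x ∈ M
  /-- the sequence is outside -/
  hs : ∀ k, s k ∉ M
  /-- convergence -/
  hlim : ∀ k i, i < k → s k i = x i

/-- the compact space -/
def XX : Set (Vx → Bool) :=
  {a | ∃ (M : Set Cn) (w : Cn), ∀ p, a p = true → p.M = M ∧ (∃ k, p.s k = w) ∧
    ∀ q, a q = true → firstDiff p.x w = firstDiff q.x w → p = q}

lemma XX_sub {a b : Vx → Bool} (ha : a ∈ XX) (hab : ∀ p, b p = true → a p = true) : b ∈ XX := by
  obtain ⟨M, w, h⟩ := ha
  refine ⟨M, w, fun p hp => ?_⟩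
  obtain ⟨h1, h2, h3⟩ := h p (hab p hp)
  exact ⟨h1, h2, fun q hq => h3 q (hab q hq)⟩

lemma finite_common (p q : Vx) (hpq : p.x ≠ q.x) :
    {w : Cn | (∃ k, p.s k = w) ∧ ∃ l, q.s l = w}.Finite := by
  set n := firstDiff p.x q.x with hn
  have hne := apply_firstDiff_ne hpq
  refine (((Finset.range (n + 1)).finite_toSet.image p.s).union
    ((Finset.range (n + 1)).finite_toSet.image q.s)).subset ?_
  rintro w ⟨⟨k, hk⟩, l, hl⟩
  by_cases h1 : k < n + 1
  · exact Or.inl ⟨k, by simpa using h1, hk⟩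
  by_cases h2 : l < n + 1
  · exact Or.inr ⟨l, by simpa using h2, hl⟩
  exfalso
  apply hne
  rw [← hn, ← p.hlim k n (by omega), ← q.hlim l n (by omega), hk, hl]

lemma isClosed_XX : IsClosed XX := by
  classical
  rw [← closure_subset_iff_isClosed]
  intro a ha
  have happ : ∀ B : Finset Vx, ∃ b ∈ XX, ∀ p ∈ B, b p = a p := by
    intro B
    rw [mem_closure_iff_nhds] at ha
    have h1 : {b : Vx → Bool | ∀ p ∈ B, b p = a p} ∈ 𝓝 a := by
      have : {b : Vx → Bool | ∀ p ∈ B, b p = a p} = ⋂ p ∈ B, {b : Vx → Bool | b p = a p} := by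
        ext b; simp
      rw [this]
      refine (Filter.biInter_finset_mem B).2 fun p _ => ?_
      have hc : Continuous fun b : Vx → Bool => b p := continuous_apply p
      have ho : IsOpen {b : Vx → Bool | b p = a p} := (isOpen_discrete {a p}).preimage hc
      exact ho.mem_nhds rfl
    obtain ⟨b, hb1, hb2⟩ := ha _ h1
    exact ⟨b, hb2, hb1⟩
  by_cases h0 : ∃ p₀, a p₀ = true
  swap
  · push Not at h0
    exact ⟨∅, fun _ => false, fun p hp => absurd hp (h0 p)⟩
  obtain ⟨p₀, hp₀⟩ := h0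
  by_cases h1 : ∃ p₁, a p₁ = true ∧ p₁ ≠ p₀
  swap
  · push Not at h1
    refine ⟨p₀.M, p₀.s 0, fun p hp => ?_⟩
    rw [h1 p hp]
    exact ⟨rfl, ⟨0, rfl⟩, fun q hq _ => (h1 q hq).symm⟩
  obtain ⟨p₁, hp₁, hne⟩ := h1
  -- good points for a finite set of vertices
  let W : Finset Vx → Cn → Prop := fun B w => ∀ p ∈ B, a p = true → p.M = p₀.M ∧ (∃ k, p.s k = w) ∧
    ∀ q ∈ B, a q = true → firstDiff p.x w = firstDiff q.x w → p = q
  have hW : ∀ B : Finset Vx, ∃ w, W (insert p₀ B) w := by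
    intro B
    obtain ⟨b, ⟨M, w, hb⟩, hba⟩ := happ (insert p₀ B)
    refine ⟨w, fun p hp hap => ?_⟩
    have hbp : b p = true := by rw [hba p hp, hap]
    have hbp₀ : b p₀ = true := by rw [hba p₀ (Finset.mem_insert_self _ _), hp₀]
    obtain ⟨e1, e2, e3⟩ := hb p hbp
    refine ⟨e1.trans (hb p₀ hbp₀).1.symm, e2, fun q hq haq heq => e3 q ?_ heq⟩
    rw [hba q hq, haq]
  have hx : p₀.x ≠ p₁.x := by
    obtain ⟨w, hw⟩ := hW {p₁}
    intro heq
    have h2 := (hw p₀ (Finset.mem_insert_self _ _) hp₀).2.2 p₁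
      (Finset.mem_insert_of_mem (Finset.mem_singleton_self _)) hp₁ (by rw [heq])
    exact hne h2.symm
  have hR := finite_common p₀ p₁ hx
  by_contra hno
  have hbad : ∀ w : Cn, ∃ B : Finset Vx, w ∈ {w : Cn | (∃ k, p₀.s k = w) ∧ ∃ l, p₁.s l = w} →
      ¬ W B w := by
    intro w
    by_contra hcon
    push Not at hcon
    apply hno
    refine ⟨p₀.M, w, fun p hp => ?_⟩
    obtain ⟨e1, e2, -⟩ := (hcon {p}).2 p (Finset.mem_singleton_self _) hp
    refine ⟨e1, e2, fun q hq heq => ?_⟩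
    exact ((hcon {p, q}).2 p (by simp) hp).2.2 q (by simp) hq heq
  choose B hB using hbad
  obtain ⟨w, hw⟩ := hW (insert p₁ (hR.toFinset.biUnion B))
  have hwR : w ∈ {w : Cn | (∃ k, p₀.s k = w) ∧ ∃ l, p₁.s l = w} := by
    refine ⟨(hw p₀ (Finset.mem_insert_self _ _) hp₀).2.1, (hw p₁ ?_ hp₁).2.1⟩
    simp
  apply hB w hwR
  have hsub : ∀ p ∈ B w, p ∈ insert p₀ (insert p₁ (hR.toFinset.biUnion B)) := by
    intro p hp
    refine Finset.mem_insert_of_mem (Finset.mem_insert_of_mem ?_)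
    exact Finset.mem_biUnion.2 ⟨w, by simpa using hwR, hp⟩
  intro p hp hap
  obtain ⟨e1, e2, e3⟩ := hw p (hsub p hp) hap
  exact ⟨e1, e2, fun q hq => e3 q (hsub q hq)⟩

instance : CompactSpace XX := isCompact_iff_compactSpace.1 isClosed_XX.isCompact

/-- the coordinate functions -/
noncomputable def ee (p : Vx) : C(XX, ℝ) :=
  ⟨fun a => if a.1 p = true then 1 else 0, by
    have h1 : Continuous fun a : XX => a.1 p := (continuous_apply p).comp continuous_subtype_val
    exact (continuous_of_discreteTopology (f := fun b : Bool => if b = true then (1 : ℝ) else 0)).comp h1⟩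

lemma ee_one {p : Vx} {a : XX} (h : a.1 p = true) : ee p a = 1 := by
  simp [ee, h]

lemma ee_zero {p : Vx} {a : XX} (h : a.1 p ≠ true) : ee p a = 0 := by
  simp [ee, h]

/-- the coordinate functions of the members of `a` are locally finite in `C_p(X)` -/
lemma locally_finite (a : XX) (g : C(XX, ℝ)) :
    ∃ V : Set C(XX, ℝ), @IsOpen _ (TopologicalSpace.induced
      (fun f : C(XX, ℝ) => (⇑f : XX → ℝ)) inferInstance) V ∧ g ∈ V ∧
      {p | a.1 p = true ∧ ee p ∈ V}.Finite := by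
  classical
  have hopen : ∀ (b : XX) (O : Set ℝ), IsOpen O → @IsOpen _ (TopologicalSpace.induced
      (fun f : C(XX, ℝ) => (⇑f : XX → ℝ)) inferInstance) {h : C(XX, ℝ) | h b ∈ O} := by
    intro b O hO
    rw [isOpen_induced_iff]
    exact ⟨{h : XX → ℝ | h b ∈ O}, hO.preimage (continuous_apply b), rfl⟩
  by_cases hg : g a < 1
  · refine ⟨{h | h a ∈ Iio 1}, hopen a _ isOpen_Iio, hg, ?_⟩
    convert finite_empty
    ext p
    simp only [mem_ofPred_eq, mem_empty_iff_false, iff_false, not_and]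
    intro hp h
    rw [ee_one hp] at h
    exact lt_irrefl (1 : ℝ) h
  · push Not at hg
    -- a finite part of `a`
    have h1 : {b : XX | 1 / 2 < g b} ∈ 𝓝 a := by
      have : IsOpen {b : XX | 1 / 2 < g b} := isOpen_lt continuous_const g.continuous
      exact this.mem_nhds (lt_of_lt_of_le (by norm_num) hg)
    rw [mem_nhds_subtype] at h1
    obtain ⟨O, hO, hOU⟩ := h1
    rw [nhds_pi, Filter.mem_pi] at hO
    obtain ⟨J, hJ, v, hv, hvO⟩ := hO
    let b : Vx → Bool := fun p => a.1 p && decide (p ∈ J)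
    have hb : b ∈ XX := XX_sub a.2 (fun p hp => by
      simp only [b, Bool.and_eq_true] at hp
      exact hp.1)
    have hgb : 1 / 2 < g ⟨b, hb⟩ := by
      have : (⟨b, hb⟩ : XX) ∈ {b : XX | 1 / 2 < g b} := by
        apply hOU
        apply hvO
        intro p hp
        show b p ∈ v p
        have : b p = a.1 p := by simp [b, hp]
        rw [this]
        exact mem_of_mem_nhds (hv p)
      exact this
    refine ⟨{h | h ⟨b, hb⟩ ∈ Ioi (1 / 2)}, hopen _ _ isOpen_Ioi, hgb, ?_⟩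
    refine hJ.subset ?_
    rintro p ⟨hp, hp2⟩
    by_contra hpJ
    have h3 : ee p ⟨b, hb⟩ = 0 := ee_zero (by simp [b, hpJ])
    have h4 : (1 / 2 : ℝ) < ee p ⟨b, hb⟩ := hp2
    rw [h3] at h4
    norm_num at h4

/-- extraction of countable information from a network -/
lemma network_info (𝒞 𝒩 : Set (Set C(XX, ℝ))) (hcov : ⋃₀ 𝒞 = univ)
    (h : ∀ C ∈ 𝒞,
        @IsCompact _ (TopologicalSpace.induced
          (fun f : C(XX, ℝ) => (⇑f : XX → ℝ)) inferInstance) C ∧
        ∀ U : Set C(XX, ℝ),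
          @IsOpen _ (TopologicalSpace.induced
            (fun f : C(XX, ℝ) => (⇑f : XX → ℝ)) inferInstance) U →
          C ⊆ U → ∃ N ∈ 𝒩, C ⊆ N ∧ N ⊆ U) (a : XX) (γ : Vx) :
    ∃ N ∈ 𝒩, ee γ ∈ N ∧ {p | a.1 p = true ∧ ee p ∈ N}.Finite := by
  classical
  obtain ⟨C, hC, hγ⟩ := mem_sUnion.1 (hcov ▸ mem_univ (ee γ) : ee γ ∈ ⋃₀ 𝒞)
  obtain ⟨hcomp, hnet⟩ := h C hC
  choose V hV1 hV2 hV3 using locally_finite a
  obtain ⟨t, ht⟩ := @IsCompact.elim_finite_subcover _ (TopologicalSpace.induced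
          (fun f : C(XX, ℝ) => (⇑f : XX → ℝ)) inferInstance) C C(XX, ℝ) hcomp V hV1
          (fun g _ => mem_iUnion.2 ⟨g, hV2 g⟩)
  obtain ⟨N, hN, hCN, hNU⟩ := hnet (⋃ g ∈ t, V g)
    (@isOpen_biUnion _ _ (TopologicalSpace.induced
          (fun f : C(XX, ℝ) => (⇑f : XX → ℝ)) inferInstance) _ _ fun g _ => hV1 g) ht
  refine ⟨N, hN, hCN hγ, ?_⟩
  have h1 : (⋃ g ∈ t, {p | a.1 p = true ∧ ee p ∈ V g}).Finite :=
    t.finite_toSet.biUnion fun g _ => hV3 g
  refine h1.subset ?_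
  rintro p ⟨hp1, hp2⟩
  obtain ⟨g, hg, hg'⟩ := mem_iUnion₂.1 (hNU hp2)
  exact mem_iUnion₂.2 ⟨g, hg, hp1, hg'⟩

end Pool.Agent.GulkoSum
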