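import Mathlib
import Pool.Agent.GulkoSum.Space

/-! Closures of small subsets of the space are Gul'ko compact. -/

open Set Filter Topology PiNat Cardinal

namespace Pool.Agent.GulkoSum

lemma countable_support (a : XX) : {p | a.1 p = true}.Countable := by
  obtain ⟨M, w, h⟩ := a.2
  have hinj : InjOn (fun p : Vx => firstDiff p.x w) {p | a.1 p = true} := by
    intro p hp q hq heq
    exact (h p hp).2.2 q hq heq
  exact Set.countable_of_injective_of_countable_image hinj (to_countable _)

theorem closure_network (A : Set XX) (hA : #A ≤ 𝔠) :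
    ∃ (𝒞 𝒩 : Set (Set C(↥(closure A), ℝ))), 𝒩.Countable ∧ ⋃₀ 𝒞 = Set.univ ∧
      ∀ C ∈ 𝒞,
        @IsCompact _ (TopologicalSpace.induced
          (fun f : C(↥(closure A), ℝ) => (⇑f : ↥(closure A) → ℝ)) inferInstance) C ∧
        ∀ U : Set C(↥(closure A), ℝ),
          @IsOpen _ (TopologicalSpace.induced
            (fun f : C(↥(closure A), ℝ) => (⇑f : ↥(closure A) → ℝ)) inferInstance) U →
          C ⊆ U → ∃ N ∈ 𝒩, C ⊆ N ∧ N ⊆ U := by
  classical
  have hcomp : CompactSpace ↥(closure A) := isCompact_iff_compactSpace.1 isClosed_closure.isCompact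
  set Γ : Set Vx := ⋃ a : A, {p | a.1.1 p = true} with hΓ
  have hΓcard : #Γ ≤ 𝔠 := by
    refine (mk_iUnion_le_sum_mk).trans ?_
    calc Cardinal.sum (fun a : A => #{p | a.1.1 p = true})
        ≤ Cardinal.sum (fun _ : A => ℵ₀) :=
          sum_le_sum _ _ fun a => le_aleph0_iff_set_countable.2 (countable_support a.1)
      _ = #A * ℵ₀ := by rw [sum_const']
      _ ≤ 𝔠 * 𝔠 := mul_le_mul' hA aleph0_le_continuum
      _ = 𝔠 := continuum_mul_self
  -- injection of the sets `M` into the Cantor set
  have hMcard : #((fun p : Vx => p.M) '' Γ) ≤ #Cn := by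
    refine mk_image_le.trans (hΓcard.trans ?_)
    simp
  obtain ⟨j⟩ := hMcard
  let r : Γ → Cn := fun δ => j ⟨δ.1.M, mem_image_of_mem _ δ.2⟩
  have hr : ∀ δ δ' : Γ, r δ = r δ' → δ.1.M = δ'.1.M := by
    intro δ δ' h
    exact congrArg Subtype.val (j.injective h)
  have hr' : ∀ δ δ' : Γ, δ.1.M = δ'.1.M → r δ = r δ' := by
    intro δ δ' h
    simp only [r]
    congr 1
    exact Subtype.ext h
  let F : Γ → ℕ → Bool := fun δ n => if n % 2 = 0 then r δ (n / 2) else δ.1.x (n / 2)
  have hF0 : ∀ δ i, F δ (2 * i) = r δ i := by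
    intro δ i
    have h1 : 2 * i % 2 = 0 := by omega
    have h2 : 2 * i / 2 = i := by omega
    simp only [F, h1, h2, if_true]
  have hF1 : ∀ δ i, F δ (2 * i + 1) = δ.1.x i := by
    intro δ i
    have h1 : ¬ (2 * i + 1) % 2 = 0 := by omega
    have h2 : (2 * i + 1) / 2 = i := by omega
    simp only [F, h1, h2, if_false]
  refine gulko_of (K := ↥(closure A)) (Γ := Γ) (fun δ a => a.1.1 δ.1) F ?_ ?_ ?_
  · intro δ
    exact (continuous_apply δ.1).comp (continuous_subtype_val.comp continuous_subtype_val)
  · intro a b hab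
    have hout : ∀ p, p ∉ Γ → ∀ a ∈ closure A, a.1 p = false := by
      intro p hp
      have hcl : IsClosed {a : XX | a.1 p = false} := by
        have hc : Continuous fun a : XX => a.1 p :=
          (continuous_apply p).comp continuous_subtype_val
        exact (isClosed_discrete {false}).preimage hc
      refine closure_minimal ?_ hcl
      intro a ha
      show a.1 p = false
      by_contra hne
      apply hp
      refine mem_iUnion.2 ⟨⟨a, ha⟩, ?_⟩
      show a.1 p = true
      simpa using hne
    apply Subtype.ext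
    apply Subtype.ext
    funext p
    by_cases hp : p ∈ Γ
    · exact hab ⟨p, hp⟩
    · rw [hout p hp a.1 a.2, hout p hp b.1 b.2]
  · intro a γ
    obtain ⟨M, w, h⟩ := a.1.2
    by_cases hex : ∃ δ₀ : Γ, a.1.1 δ₀.1 = true
    swap
    · push Not at hex
      refine ⟨0, ?_⟩
      convert finite_empty
      ext δ
      simp only [mem_ofPred_eq, mem_empty_iff_false, iff_false, not_and]
      intro h1
      exact absurd h1 (hex δ)
    obtain ⟨δ₀, hδ₀⟩ := hex
    by_cases hM : γ.1.M = M
    · have hw : w ∉ M := by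
        obtain ⟨e1, ⟨k, hk⟩, -⟩ := h δ₀.1 hδ₀
        rw [← e1, ← hk]
        exact δ₀.1.hs k
      have hne : γ.1.x ≠ w := by
        intro heq
        apply hw
        rw [← heq, ← hM]
        exact γ.1.hx
      set d := firstDiff γ.1.x w with hd
      refine ⟨2 * d + 2, ?_⟩
      apply Set.Subsingleton.finite
      have hfd : ∀ δ : Γ, (∀ i, i < 2 * d + 2 → F δ i = F γ i) → firstDiff δ.1.x w = d := by
        intro δ hδ
        have hx : ∀ i, i ≤ d → δ.1.x i = γ.1.x i := by
          intro i hi
          have := hδ (2 * i + 1) (by omega)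
          rwa [hF1, hF1] at this
        have hne' : δ.1.x ≠ w := by
          intro heq
          apply apply_firstDiff_ne hne
          rw [← hd, ← hx d le_rfl, heq]
        apply le_antisymm
        · by_contra hlt
          push Not at hlt
          have h1 := apply_eq_of_lt_firstDiff hlt
          apply apply_firstDiff_ne hne
          rw [← hd, ← hx d le_rfl, h1]
        · rw [← mem_cylinder_iff_le_firstDiff hne', mem_cylinder_iff]
          intro i hi
          rw [hx i hi.le]
          exact apply_eq_of_lt_firstDiff hi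
      rintro δ ⟨hδ1, hδ2⟩ δ' ⟨hδ1', hδ2'⟩
      apply Subtype.ext
      exact (h δ.1 hδ1).2.2 δ'.1 hδ1' ((hfd δ hδ2).trans (hfd δ' hδ2').symm)
    · have hne : r δ₀ ≠ r γ := by
        intro heq
        apply hM
        rw [← hr _ _ heq]
        exact (h δ₀.1 hδ₀).1
      obtain ⟨i, hi⟩ := Function.ne_iff.1 hne
      refine ⟨2 * i + 1, ?_⟩
      convert finite_empty
      ext δ
      simp only [mem_ofPred_eq, mem_empty_iff_false, iff_false, not_and]
      intro h1 h2
      have h3 := h2 (2 * i) (by omega)
      rw [hF0, hF0] at h3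
      apply hi
      rw [← h3]
      exact congrFun (hr' δ₀ δ ((h δ₀.1 hδ₀).1.trans (h δ.1 h1).1.symm)) i

end Pool.Agent.GulkoSum
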