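import Mathlib
import Pool.Agent.GulkoSum.Space

/-! The compact space is not Gul'ko compact: counting argument. -/

open Set Filter Topology PiNat

namespace Pool.Agent.GulkoSum

instance : Nonempty Vx := by
  refine ⟨⟨{fun _ => false}, fun _ => false, fun k i => decide (i = k), rfl, ?_, ?_⟩⟩
  · intro k hk
    have : (fun i => decide (i = k)) k = false := congrFun hk k
    simp at this
  · intro k i hi
    simp [hi.ne]

section

variable (F : Vx → ℕ → Bool)

/-- the key point: stable values -/
lemma exists_stable (M : Set Cn) (x : Cn) (hx : x ∈ M) : ∃ (γ : Vx) (ν : ℕ → ℕ), ∀ k w, w ∉ M →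
    (∀ i, i < ν k → w i = x i) →
    ∃ p : Vx, p.M = M ∧ p.x = x ∧ (∃ j, p.s j = w) ∧ ∀ i, i < k → F p i = F γ i := by
  classical
  let bad : List Bool → Prop := fun t => ∀ n : ℕ, ∃ w, w ∉ M ∧ (∀ i, i < n → w i = x i) ∧
    ∀ p : Vx, p.M = M → p.x = x → (∃ j, p.s j = w) → ∀ k, res (F p) k ≠ t
  by_cases hcase : ∃ p : Vx, p.M = M ∧ p.x = x ∧ ∀ k, ¬ bad (res (F p) k)
  · obtain ⟨γ, h1, h2, h3⟩ := hcase
    have h4 : ∀ k, ∃ n : ℕ, ∀ w, w ∉ M → (∀ i, i < n → w i = x i) →
        ∃ p : Vx, p.M = M ∧ p.x = x ∧ (∃ j, p.s j = w) ∧ ∃ k', res (F p) k' = res (F γ) k := by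
      intro k
      have := h3 k
      simp only [bad] at this
      push Not at this
      exact this
    choose ν hν using h4
    refine ⟨γ, ν, fun k w hw hwx => ?_⟩
    obtain ⟨p, e1, e2, e3, k', e4⟩ := hν k w hw hwx
    refine ⟨p, e1, e2, e3, ?_⟩
    have hk : k' = k := by
      have := congrArg List.length e4
      rwa [res_length, res_length] at this
    rw [hk] at e4
    exact fun i hi => (res_eq_res.1 e4) hi
  · push Not at hcase
    by_cases hint : ∃ n : ℕ, ∀ w : Cn, (∀ i, i < n → w i = x i) → w ∈ M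
    · obtain ⟨n, hn⟩ := hint
      exact ⟨Classical.arbitrary _, fun _ => n, fun k w hw hwx => absurd (hn w hwx) hw⟩
    · push Not at hint
      exfalso
      -- there are bad strings
      have hne : {t | bad t}.Nonempty := by
        choose s hs1 hs2 using hint
        obtain ⟨k, hk⟩ := hcase ⟨M, x, s, hx, hs2, fun k i hi => hs1 k i hi⟩ rfl rfl
        exact ⟨_, hk⟩
      obtain ⟨t, ht⟩ := (to_countable {t | bad t}).exists_eq_range hne
      have htb : ∀ j, bad (t j) := fun j => by
        have : t j ∈ {t | bad t} := by rw [ht]; exact mem_range_self j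
        exact this
      have hw : ∀ j : ℕ, ∃ w, w ∉ M ∧ (∀ i, i < j → w i = x i) ∧
          ∀ p : Vx, p.M = M → p.x = x → (∃ l, p.s l = w) → ∀ k, res (F p) k ≠ t j :=
        fun j => htb j j
      choose s hs1 hs2 hs3 using hw
      obtain ⟨k, hk⟩ := hcase ⟨M, x, s, hx, hs1, fun k i hi => hs2 k i hi⟩ rfl rfl
      have hmem : res (F ⟨M, x, s, hx, hs1, fun k i hi => hs2 k i hi⟩) k ∈ {t | bad t} := hk
      rw [ht] at hmem
      obtain ⟨j, hj⟩ := hmem
      exact hs3 j ⟨M, x, s, hx, hs1, fun k i hi => hs2 k i hi⟩ rfl rfl ⟨j, rfl⟩ k hj.symm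

/-- There is no map `F` with the property extracted from a network. -/
theorem no_map (hF : ∀ a ∈ XX, ∀ γ, ∃ n, F γ n = true ∧ {p | a p = true ∧ F p n = true}.Finite) :
    False := by
  classical
  have hst := fun (M : Set Cn) (x : M) => exists_stable F M x.1 x.2
  choose γ ν hγ using hst
  let T : Set Cn → Set (List Bool × List Bool × List ℕ) := fun M =>
    {q | ∃ (x : M) (n : ℕ), q = (res x.1 n, res (F (γ M x)) n, res (ν M x) n)}
  let G : Set (List Bool × List Bool × List ℕ) → Set Cn := fun T =>
    {x | ∃ (g : Vx) (v : ℕ → ℕ), ∀ n, (res x n, res (F g) n, res v n) ∈ T}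
  have hGT : ∀ M, G (T M) = M := by
    intro M
    ext w
    constructor
    swap
    · intro hw
      exact ⟨γ M ⟨w, hw⟩, ν M ⟨w, hw⟩, fun n => ⟨⟨w, hw⟩, n, rfl⟩⟩
    · rintro ⟨g, v, hgv⟩
      by_contra hw
      -- close points of `M`
      have hclose : ∀ n : ℕ, ∃ x : M, (∀ i, i < n → w i = x.1 i) ∧
          (∀ i, i < n → F g i = F (γ M x) i) ∧ ∀ i, i < n → v i = ν M x i := by
        intro n
        obtain ⟨x, n', hq⟩ := hgv n
        simp only [Prod.mk.injEq] at hq
        obtain ⟨h1, h2, h3⟩ := hq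
        have hn : n' = n := by
          have := congrArg List.length h1
          rw [res_length, res_length] at this
          exact this.symm
        rw [hn] at h1 h2 h3
        exact ⟨x, fun i hi => res_eq_res.1 h1 hi, fun i hi => res_eq_res.1 h2 hi,
          fun i hi => res_eq_res.1 h3 hi⟩
      have hvert : ∀ k d : ℕ, ∃ p : Vx, p.M = M ∧ (∃ j, p.s j = w) ∧
          (∀ i, i < k → F p i = F g i) ∧ d ≤ firstDiff p.x w := by
        intro k d
        obtain ⟨x, h1, h2, h3⟩ := hclose (max (max (k + 1) (v k)) d)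
        have hk : v k = ν M x k := h3 k (by omega)
        obtain ⟨p, e1, e2, e3, e4⟩ := hγ M x k w hw (fun i hi => h1 i (by omega))
        refine ⟨p, e1, e3, fun i hi => ?_, ?_⟩
        · rw [e4 i hi, h2 i (by omega)]
        · rw [e2]
          have hne : x.1 ≠ w := fun h => hw (h ▸ x.2)
          rw [← mem_cylinder_iff_le_firstDiff hne, mem_cylinder_iff]
          intro i hi
          exact (h1 i (by omega)).symm
      choose P hP1 hP2 hP3 hP4 using hvert
      let p : ℕ → Vx := fun k => Nat.rec (P 0 0) (fun k q => P (k + 1) (firstDiff q.x w + 1)) k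
      have hpsucc : ∀ k, p (k + 1) = P (k + 1) (firstDiff (p k).x w + 1) := fun k => rfl
      have hpM : ∀ k, (p k).M = M := by
        intro k
        cases k with
        | zero => exact hP1 _ _
        | succ k => exact hP1 _ _
      have hpw : ∀ k, ∃ j, (p k).s j = w := by
        intro k
        cases k with
        | zero => exact hP2 _ _
        | succ k => exact hP2 _ _
      have hpF : ∀ k i, i < k → F (p k) i = F g i := by
        intro k
        cases k with
        | zero => exact hP3 _ _
        | succ k => exact hP3 _ _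
      have hmono : StrictMono fun k => firstDiff (p k).x w := by
        refine strictMono_nat_of_lt_succ fun k => ?_
        rw [hpsucc]
        exact hP4 _ _
      have hinj : Function.Injective p := by
        intro i j hij
        exact hmono.injective (by simp only [hij])
      have ha : (fun q => decide (q ∈ range p)) ∈ XX := by
        refine ⟨M, w, fun q hq => ?_⟩
        rw [decide_eq_true_eq] at hq
        obtain ⟨i, rfl⟩ := hq
        refine ⟨hpM i, hpw i, fun q hq heq => ?_⟩
        rw [decide_eq_true_eq] at hq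
        obtain ⟨j, rfl⟩ := hq
        rw [hmono.injective heq]
      obtain ⟨n, hn, hfin⟩ := hF _ ha g
      have hsub : p '' {k | n < k} ⊆ {q | decide (q ∈ range p) = true ∧ F q n = true} := by
        rintro _ ⟨k, hk, rfl⟩
        refine ⟨by simp, ?_⟩
        rw [hpF k n hk]
        exact hn
      have h1 : (p '' {k | n < k}).Finite := hfin.subset hsub
      have h2 : {k | n < k}.Finite := h1.of_finite_image hinj.injOn
      exact (Set.Ioi_infinite n) h2
  -- Cantor
  let E : Cn → Set (List Bool × List Bool × List ℕ) := fun y => {q | y (Encodable.encode q) = true}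
  have hE : Function.Surjective E := by
    intro T
    refine ⟨fun m => decide (∃ q ∈ T, Encodable.encode q = m), ?_⟩
    ext q
    simp only [E, mem_ofPred_eq, decide_eq_true_eq]
    constructor
    · rintro ⟨q', hq', heq⟩
      rw [← Encodable.encode_injective heq]
      exact hq'
    · intro hq
      exact ⟨q, hq, rfl⟩
  have hG : Function.Surjective G := fun M => ⟨T M, hGT M⟩
  exact Function.cantor_surjective (fun y => G (E y)) (hG.comp hE)

end

/-- `C_p(XX)` has no compact cover with a countable network. -/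
theorem not_network : ¬ ∃ (𝒞 𝒩 : Set (Set C(XX, ℝ))), 𝒩.Countable ∧ ⋃₀ 𝒞 = univ ∧
      ∀ C ∈ 𝒞,
        @IsCompact _ (TopologicalSpace.induced
          (fun f : C(XX, ℝ) => (⇑f : XX → ℝ)) inferInstance) C ∧
        ∀ U : Set C(XX, ℝ),
          @IsOpen _ (TopologicalSpace.induced
            (fun f : C(XX, ℝ) => (⇑f : XX → ℝ)) inferInstance) U →
          C ⊆ U → ∃ N ∈ 𝒩, C ⊆ N ∧ N ⊆ U := by
  classical
  rintro ⟨𝒞, 𝒩, hcount, hcov, h⟩
  have hinfo := network_info 𝒞 𝒩 hcov h
  have hne : 𝒩.Nonempty := by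
    obtain ⟨N, hN, -⟩ := hinfo ⟨fun _ => false, ⟨∅, fun _ => false, fun p hp => by simp at hp⟩⟩
      (Classical.arbitrary _)
    exact ⟨N, hN⟩
  obtain ⟨f, rfl⟩ := hcount.exists_eq_range hne
  apply no_map (fun p n => decide (ee p ∈ f n))
  intro a ha γ
  obtain ⟨N, ⟨n, rfl⟩, h1, h2⟩ := hinfo ⟨a, ha⟩ γ
  refine ⟨n, by simpa using h1, ?_⟩
  refine h2.subset ?_
  rintro p ⟨hp1, hp2⟩
  exact ⟨hp1, by simpa using hp2⟩

end Pool.Agent.GulkoSum
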