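import Mathlib
import Pool.Agent.GulkoSum.Closures
import Pool.Agent.GulkoSum.Negative

/-! The two definitions of Lindelöf Σ-spaces, and the counterexample in terms of `K × M`. -/

open Set Filter Topology TopologicalSpace
open Cardinal hiding univ

universe u v

namespace Pool.Agent.GulkoSum

/-- a compact cover with a countable network modulo it -/
def HasNet (Z : Type u) [TopologicalSpace Z] : Prop :=
  ∃ (𝒞 𝒩 : Set (Set Z)), 𝒩.Countable ∧ ⋃₀ 𝒞 = univ ∧
    ∀ C ∈ 𝒞, IsCompact C ∧ ∀ U : Set Z, IsOpen U → C ⊆ U → ∃ N ∈ 𝒩, C ⊆ N ∧ N ⊆ U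

lemma HasNet.of_homeo {Z : Type u} {Z' : Type v} [TopologicalSpace Z] [TopologicalSpace Z']
    (e : Z ≃ₜ Z') (h : HasNet Z) : HasNet Z' := by
  obtain ⟨𝒞, 𝒩, h1, h2, h3⟩ := h
  refine ⟨(fun C => e '' C) '' 𝒞, (fun C => e '' C) '' 𝒩, h1.image _, ?_, ?_⟩
  · refine eq_univ_of_forall fun z => ?_
    have : e.symm z ∈ ⋃₀ 𝒞 := by rw [h2]; exact mem_univ _
    obtain ⟨C, hC, hz⟩ := this
    exact ⟨e '' C, ⟨C, hC, rfl⟩, ⟨_, hz, e.apply_symm_apply z⟩⟩
  · rintro _ ⟨C, hC, rfl⟩
    refine ⟨(h3 C hC).1.image e.continuous, fun U hU hCU => ?_⟩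
    obtain ⟨N, hN, hCN, hNU⟩ := (h3 C hC).2 (e ⁻¹' U) (hU.preimage e.continuous)
      (image_subset_iff.1 hCU)
    exact ⟨e '' N, ⟨N, hN, rfl⟩, image_mono hCN, image_subset_iff.2 hNU⟩

/-- from the network to a closed subspace of `K × M` -/
theorem sigma_of_net {Z : Type u} [TopologicalSpace Z] [T35Space Z] (h : HasNet Z) :
    ∃ (K M : Type u) (_ : TopologicalSpace K) (_ : TopologicalSpace M) (F : Set (K × M))
      (f : F → Z), CompactSpace K ∧ T2Space K ∧ SeparableSpace M ∧ MetrizableSpace M ∧
      IsClosed F ∧ Continuous f ∧ Function.Surjective f := by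
  classical
  obtain ⟨𝒞, 𝒩, hcount, hcov, h⟩ := h
  have hc : Countable 𝒩 := hcount.to_subtype
  let e : Z → StoneCech Z := stoneCechUnit
  have he : IsEmbedding e := isEmbedding_stoneCechUnit
  let Ms : Set (𝒩 → Bool) := {s | ∀ y : StoneCech Z,
    (∀ N : 𝒩, s N = true → y ∈ closure (e '' N.1)) → y ∈ range e}
  let F : Set (StoneCech Z × Ms) := {p | ∀ N : 𝒩, p.2.1 N = true → p.1 ∈ closure (e '' N.1)}
  have hF : IsClosed F := by
    have : F = ⋂ N : 𝒩, ({p | p.2.1 N = false} ∪ {p | p.1 ∈ closure (e '' N.1)}) := by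
      ext p
      simp only [F, mem_ofPred_eq, mem_iInter, mem_union]
      refine forall_congr' fun N => ?_
      cases h : p.2.1 N <;> simp
    rw [this]
    refine isClosed_iInter fun N => IsClosed.union ?_ ?_
    · have hc : Continuous fun p : StoneCech Z × Ms => p.2.1 N :=
        (continuous_apply N).comp (continuous_subtype_val.comp continuous_snd)
      exact (isClosed_discrete {false}).preimage hc
    · exact isClosed_closure.preimage continuous_fst
  have hex : ∀ p : F, ∃ z : Z, e z = p.1.1 := fun p => p.1.2.2 p.1.1 p.2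
  choose f hf using hex
  refine ⟨StoneCech Z, Ms, inferInstance, inferInstance, F, f, inferInstance, inferInstance,
    inferInstance, inferInstance, hF, ?_, ?_⟩
  · rw [he.continuous_iff]
    have : e ∘ f = fun p => p.1.1 := funext hf
    rw [this]
    exact continuous_fst.comp continuous_subtype_val
  · intro z
    have hz : z ∈ ⋃₀ 𝒞 := by rw [hcov]; exact mem_univ _
    obtain ⟨C, hC, hzC⟩ := hz
    let s : 𝒩 → Bool := fun N => decide (C ⊆ N.1)
    have hs : s ∈ Ms := by
      intro y hy
      by_contra hyr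
      have hcomp : IsCompact (e '' C) := (h C hC).1.image he.continuous
      have hyC : y ∉ e '' C := fun ⟨c, _, hc⟩ => hyr ⟨c, hc⟩
      obtain ⟨U, V, hU, hV, hyU, hCV, hUV⟩ :=
        (SeparatedNhds.of_isCompact_isCompact (isCompact_singleton (x := y)) hcomp
          (disjoint_singleton_left.2 hyC))
      obtain ⟨N, hN, hCN, hNV⟩ := (h C hC).2 (e ⁻¹' V) (hV.preimage he.continuous)
        (image_subset_iff.1 hCV)
      have h1 := hy ⟨N, hN⟩ (by simpa [s] using hCN)
      rw [mem_closure_iff] at h1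
      obtain ⟨w, hw1, hw2⟩ := h1 U hU (hyU rfl)
      exact disjoint_left.1 hUV hw1 (image_subset_iff.2 hNV hw2)
    have hp : ((e z, ⟨s, hs⟩) : StoneCech Z × Ms) ∈ F := by
      intro N hN
      have hCN : C ⊆ N.1 := by simpa [s] using hN
      exact subset_closure ⟨z, hCN hzC, rfl⟩
    refine ⟨⟨_, hp⟩, he.injective ?_⟩
    exact hf ⟨_, hp⟩

/-- from a closed subspace of `K × M` to the network -/
theorem net_of_sigma {Z : Type u} [TopologicalSpace Z] {K M : Type v} [TopologicalSpace K]
    [TopologicalSpace M] [CompactSpace K] [SeparableSpace M] [MetrizableSpace M]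
    (F : Set (K × M)) (hF : IsClosed F) (f : F → Z) (hf : Continuous f)
    (hs : Function.Surjective f) : HasNet Z := by
  classical
  let _ := metrizableSpaceMetric M
  have : SecondCountableTopology M := UniformSpace.secondCountable_of_separable M
  refine ⟨range fun m : M => f '' {p : F | p.1.2 = m},
    (fun B : Set M => f '' {p : F | p.1.2 ∈ B}) '' (countableBasis M),
    (countable_countableBasis M).image _, ?_, ?_⟩
  · refine eq_univ_of_forall fun z => ?_
    obtain ⟨p, rfl⟩ := hs z
    exact ⟨_, ⟨p.1.2, rfl⟩, ⟨p, rfl, rfl⟩⟩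
  · rintro _ ⟨m, rfl⟩
    constructor
    · refine IsCompact.image ?_ hf
      rw [Subtype.isCompact_iff]
      have : (Subtype.val '' {p : F | p.1.2 = m}) = F ∩ (univ ×ˢ {m}) := by
        ext p
        constructor
        · rintro ⟨p, hp, rfl⟩
          exact ⟨p.2, mem_univ _, hp⟩
        · rintro ⟨h1, -, h2⟩
          exact ⟨⟨p, h1⟩, h2, rfl⟩
      rw [this]
      exact (isCompact_univ.prod isCompact_singleton).inter_left hF
    · intro U hU hCU
      obtain ⟨W, hW, hWU⟩ := isOpen_induced_iff.1 (hU.preimage hf)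
      obtain ⟨a, b, ha, hb, hKa, hmb, hab⟩ := generalized_tube_lemma (s := (univ : Set K))
        isCompact_univ (t := {m}) isCompact_singleton (n := W ∪ Fᶜ)
        (hW.union hF.isOpen_compl) (by
          rintro ⟨k, m'⟩ ⟨-, hm'⟩
          have hm'' : m' = m := hm'
          subst hm''
          by_cases hk : (k, m') ∈ F
          · left
            have h1 : (⟨(k, m'), hk⟩ : F) ∈ f ⁻¹' U := hCU ⟨⟨(k, m'), hk⟩, rfl, rfl⟩
            rw [← hWU] at h1
            exact h1
          · exact Or.inr hk)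
      obtain ⟨B, hB, hmB, hBb⟩ := (isBasis_countableBasis M).exists_subset_of_mem_open
        (hmb rfl) hb
      refine ⟨_, ⟨B, hB, rfl⟩, ?_, ?_⟩
      · rintro _ ⟨p, hp, rfl⟩
        refine ⟨p, ?_, rfl⟩
        show p.1.2 ∈ B
        rw [show p.1.2 = m from hp]
        exact hmB
      · rintro _ ⟨p, hp, rfl⟩
        have h1 : (p.1 : K × M) ∈ W ∪ Fᶜ := hab ⟨hKa (mem_univ _), hBb hp⟩
        rcases h1 with h1 | h1
        · have : p ∈ Subtype.val ⁻¹' W := h1
          rw [hWU] at this
          exact this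
        · exact absurd p.2 h1

/-- `C(Y, ℝ)` with pointwise convergence as a subspace of the product -/
def homeoCp (Y : Type u) [TopologicalSpace Y] :
    @Homeomorph C(Y, ℝ) {f : Y → ℝ // Continuous f}
      (TopologicalSpace.induced (fun f : C(Y, ℝ) => (⇑f : Y → ℝ)) inferInstance) inferInstance :=
  letI : TopologicalSpace C(Y, ℝ) :=
    TopologicalSpace.induced (fun f : C(Y, ℝ) => (⇑f : Y → ℝ)) inferInstance
  { toFun := fun f => ⟨f, f.continuous⟩
    invFun := fun f => ⟨f.1, f.2⟩
    left_inv := fun f => rfl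
    right_inv := fun f => rfl
    continuous_toFun := by
      refine Continuous.subtype_mk ?_ _
      exact continuous_induced_dom
    continuous_invFun := by
      refine continuous_induced_rng.2 ?_
      exact continuous_subtype_val }

theorem closure_hasNet (A : Set XX) (hA : #A ≤ 𝔠) :
    HasNet {f : closure A → ℝ // Continuous f} := by
  letI : TopologicalSpace C(closure A, ℝ) :=
    TopologicalSpace.induced (fun f : C(closure A, ℝ) => (⇑f : closure A → ℝ)) inferInstance
  exact HasNet.of_homeo (homeoCp (closure A)) (closure_network A hA)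

theorem not_hasNet : ¬ HasNet {f : XX → ℝ // Continuous f} := by
  letI : TopologicalSpace C(XX, ℝ) :=
    TopologicalSpace.induced (fun f : C(XX, ℝ) => (⇑f : XX → ℝ)) inferInstance
  intro h
  exact not_network (HasNet.of_homeo (homeoCp XX).symm h)

end Pool.Agent.GulkoSum
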